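import Mathlib
import Pool.Agent.Results.MP_8fc134_al.AColumns

set_option autoImplicit false

namespace Pool.Agent.Results.MP_f608e6_al.LinearRange

open Pool.Agent.Results.MP_8fc134_al.AColumns

/-- The pseudo-Frobenius numbers of `G`: the integers `p` not in `G` such that `p + c` is in `G`
for every nonzero element `c` of `G`. -/
def PF (G : AddSubmonoid ℕ) : Set ℤ :=
  {p : ℤ | (¬ ∃ n ∈ G, (n : ℤ) = p) ∧ ∀ c ∈ G, c ≠ 0 → ∃ n ∈ G, (n : ℤ) = p + c}

/-- `T(e, m)`: the supremum of the types of the numerical semigroups of embedding dimension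
`e + 1` and multiplicity `m`. -/
noncomputable def T (e m : ℕ) : ℕ∞ :=
  ⨆ G : {G : AddSubmonoid ℕ // {n : ℕ | n ∉ G}.Finite ∧ (minGens G).encard = e + 1 ∧
    IsLeast {n | n ∈ G ∧ n ≠ 0} m}, (PF G.1).encard

/-- `u` is the value `n_<d>`: either both are zero, or `n` is the sum of the binomial coefficients
`choose (f i) i` for `j ≤ i ≤ d`, with `f` strictly increasing and `1 ≤ j ≤ f j`, and `u` is the sum
of the `choose (f i - 1) i`. -/
def IsLower (n d u : ℕ) : Prop :=
  (n = 0 ∧ u = 0) ∨ ∃ (j : ℕ) (f : ℕ → ℕ), 1 ≤ j ∧ j ≤ d ∧ j ≤ f j ∧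
    (∀ i, j ≤ i → i < d → f i < f (i + 1)) ∧
    n = ∑ i ∈ Finset.Icc j d, (f i).choose i ∧
    u = ∑ i ∈ Finset.Icc j d, (f i - 1).choose i

/-- `c = D(e, m)` is the general upper bound of the type for embedding dimension `e + 1` and
multiplicity `m`. -/
def IsBound (e m c : ℕ) : Prop :=
  ∃ r s u : ℕ, 1 ≤ r ∧ (e + r - 1).choose (r - 1) ≤ m ∧ m < (e + r).choose r ∧
    m = (e + r - 1).choose (r - 1) + s ∧
    IsLower s r u ∧ c = (e + r - 2).choose (r - 1) + u

/-- `D(e, m) ≤ T(e, m)`. By the known bound `T(e, m) ≤ D(e, m)` this says `T(e, m) = D(e, m)`. -/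
def TAttained (e m : ℕ) : Prop := ∃ c : ℕ, IsBound e m c ∧ (c : ℕ∞) ≤ T e m

/-- two pairs of `D` with the same sum are equal -/
lemma sum_inj {m : ℕ} {X : Finset ℕ} {D : Finset (Multiset ℕ)} (hX : GoodD m X D)
    (p q : Multiset ℕ) (hp : p ∈ D) (hq : q ∈ D) (h : p.sum = q.sum) : p = q := by
  obtain ⟨x, hx, y, hy, rfl⟩ := hX.pairs p hp
  obtain ⟨a, ha, b, hb, rfl⟩ := hX.pairs q hq
  have hs : x + y = a + b := by simpa using h
  rcases hX.uniq x hx y hy hp a (Finset.mem_insert_of_mem ha) b (Finset.mem_insert_of_mem hb)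
    (by rw [hs]) with ⟨rfl, rfl⟩ | ⟨rfl, rfl⟩
  · rfl
  · exact Multiset.pair_comm _ _

/-- membership in `PF` for natural numbers -/
lemma mem_PF (G : AddSubmonoid ℕ) (n : ℕ) (h1 : n ∉ G) (h2 : ∀ c ∈ G, c ≠ 0 → n + c ∈ G) :
    (n : ℤ) ∈ PF G := by
  refine ⟨?_, ?_⟩
  · rintro ⟨k, hk, he⟩
    have : k = n := by exact_mod_cast he
    exact h1 (this ▸ hk)
  · intro c hc h0
    exact ⟨n + c, h2 c hc h0, by push_cast; ring⟩

lemma pf_W (m : ℕ) (X : Finset ℕ) (D : Finset (Multiset ℕ)) (hm : 0 < m) (hX : GoodD m X D)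
    (w : ℕ) (hw : w ∈ WD m X D) : ((4 * m + w : ℕ) : ℤ) ∈ PF (GamD m X D hm hX) := by
  unfold WD at hw
  rw [Finset.mem_filter, Finset.mem_range] at hw
  obtain ⟨hwm, hw0, hwX, hwD⟩ := hw
  refine mem_PF _ _ ?_ ?_
  · rw [mem_GamD]
    unfold MemD
    rw [modk979 4 m w hwm]
    rintro (h | ⟨_, h⟩ | ⟨h, _⟩ | ⟨x, _, y, _, _, h⟩ | h)
    · exact hw0 h
    · exact hwX h
    · omega
    · omega
    · omega
  · intro c hc h0
    rw [mem_GamD] at hc ⊢
    rcases hc with h | ⟨h, _⟩ | ⟨h, _⟩ | ⟨x, _, y, _, _, h⟩ | h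
    · have hcm : m ≤ c := Nat.le_of_dvd (Nat.pos_of_ne_zero h0) (Nat.dvd_of_mod_eq_zero h)
      have hmod : (4 * m + w + c) % m = w := by
        rw [Nat.add_mod, h, add_zero, Nat.mod_mod, modk979 4 m w hwm]
      right; right; left
      rw [hmod]
      exact ⟨by omega, hwX, hwD⟩
    · right; right; right; right; omega
    · right; right; right; right; omega
    · right; right; right; right; omega
    · right; right; right; right; omega

lemma pf_D (m : ℕ) (X : Finset ℕ) (D : Finset (Multiset ℕ)) (hm : 0 < m) (hX : GoodD m X D)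
    (p : Multiset ℕ) (hp : p ∈ D) : ((5 * m + p.sum : ℕ) : ℤ) ∈ PF (GamD m X D hm hX) := by
  obtain ⟨x, hx, y, hy, rfl⟩ := hX.pairs p hp
  have hsum : (({x, y} : Multiset ℕ)).sum = x + y := by simp
  rw [hsum]
  have hx0 := hX.pos x hx
  have hy0 := hX.pos y hy
  have hmod : (5 * m + (x + y)) % m = (x + y) % m := by
    rw [Nat.mul_add_mod']
  refine mem_PF _ _ ?_ ?_
  · rw [mem_GamD]
    unfold MemD
    rw [hmod]
    rintro (h | ⟨_, h⟩ | ⟨_, _, h⟩ | ⟨a, ha, b, hb, hab, h⟩ | h)
    · have := hX.uniq x hx y hy hp 0 (Finset.mem_insert_self _ _) 0 (Finset.mem_insert_self _ _)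
        (by rw [h]; simp)
      omega
    · have := hX.uniq x hx y hy hp 0 (Finset.mem_insert_self _ _) ((x + y) % m)
        (Finset.mem_insert_of_mem h) (by rw [zero_add, Nat.mod_mod])
      omega
    · exact h x hx y hy hp rfl
    · have h2 : (x + y) % m = (a + b) % m := by
        have h3 : (5 * m + (x + y)) % m = (6 * m + a + b) % m := by rw [h]
        rw [hmod] at h3
        rw [h3, show 6 * m + a + b = 6 * m + (a + b) by ring, Nat.mul_add_mod']
      have := hX.uniq x hx y hy hp a (Finset.mem_insert_of_mem ha) b (Finset.mem_insert_of_mem hb) h2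
      omega
    · omega
  · intro c hc h0
    rw [mem_GamD] at hc ⊢
    rcases hc with h | ⟨h, _⟩ | ⟨h, _⟩ | ⟨a, _, b, _, _, h⟩ | h
    · obtain ⟨j, rfl⟩ := Nat.dvd_of_mod_eq_zero h
      have hj : 1 ≤ j := by
        rcases Nat.eq_zero_or_pos j with rfl | hj
        · simp at h0
        · exact hj
      rcases Nat.eq_or_lt_of_le hj with hj1 | hj2
      · right; right; right; left
        refine ⟨x, hx, y, hy, hp, ?_⟩
        rw [← hj1]; ring
      · right; right; right; right
        have : m * 2 ≤ m * j := Nat.mul_le_mul_left m hj2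
        omega
    · right; right; right; right; omega
    · right; right; right; right; omega
    · right; right; right; right; omega
    · right; right; right; right; omega

/-- the number of pseudo-Frobenius numbers of the semigroup -/
lemma type_ge (m : ℕ) (X : Finset ℕ) (D : Finset (Multiset ℕ)) (hm : 0 < m) (hX : GoodD m X D) :
    (((WD m X D).card + D.card : ℕ) : ℕ∞) ≤ (PF (GamD m X D hm hX)).encard := by
  classical
  set S : Finset ℕ := (WD m X D).image (fun w => 4 * m + w) ∪
    D.image (fun p => 5 * m + p.sum) with hS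
  have hc : S.card = (WD m X D).card + D.card := by
    rw [hS, Finset.card_union_of_disjoint, Finset.card_image_of_injective,
      Finset.card_image_of_injOn]
    · intro p hp q hq h
      dsimp only at h
      exact sum_inj hX p q hp hq (by omega)
    · intro a b h
      dsimp only at h
      omega
    · rw [Finset.disjoint_left]
      intro z hz hz'
      rw [Finset.mem_image] at hz hz'
      obtain ⟨w, hw, h1⟩ := hz
      obtain ⟨p, hp, h2⟩ := hz'
      unfold WD at hw
      rw [Finset.mem_filter, Finset.mem_range] at hw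
      omega
  rw [← hc]
  have hsub : ((fun n : ℕ => (n : ℤ)) '' (S : Set ℕ)) ⊆ PF (GamD m X D hm hX) := by
    rintro z ⟨n, hn, rfl⟩
    rw [Finset.mem_coe, hS, Finset.mem_union, Finset.mem_image, Finset.mem_image] at hn
    rcases hn with ⟨w, hw, rfl⟩ | ⟨p, hp, rfl⟩
    · exact pf_W m X D hm hX w hw
    · exact pf_D m X D hm hX p hp
  refine le_trans ?_ (Set.encard_le_encard hsub)
  rw [Set.InjOn.encard_image (fun a _ b _ h => by exact_mod_cast h),
    Set.encard_coe_eq_coe_finsetCard]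

lemma card_gen (m : ℕ) (X : Finset ℕ) (D : Finset (Multiset ℕ)) (hX : GoodD m X D) (hm : 0 < m) :
    (genD m X D).card = 1 + X.card + (WD m X D).card := by
  have hXm : ∀ x ∈ X, 0 < x ∧ x < m := hX.pos
  unfold genD
  rw [Finset.card_insert_of_notMem, Finset.card_union_of_disjoint,
    Finset.card_image_of_injective, Finset.card_image_of_injective]
  · ring
  · intro a b h
    dsimp only at h
    omega
  · intro a b h
    dsimp only at h
    omega
  · rw [Finset.disjoint_left]
    intro z hz hz'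
    rw [Finset.mem_image] at hz hz'
    obtain ⟨x, hx, h1⟩ := hz
    obtain ⟨w, hw, h2⟩ := hz'
    have := (hXm x hx).2
    omega
  · intro h
    rw [Finset.mem_union, Finset.mem_image, Finset.mem_image] at h
    rcases h with ⟨x, hx, h⟩ | ⟨w, hw, h⟩
    · omega
    · omega

/-- `T(e, m)` is at least `e - |X| + |D|`. -/
theorem T_geD (m : ℕ) (X : Finset ℕ) (D : Finset (Multiset ℕ)) (hm : 0 < m)
    (hX : GoodD m X D) (e : ℕ) (he : e + 1 + D.card = m) :
    X.card ≤ e ∧ ((e - X.card + D.card : ℕ) : ℕ∞) ≤ T e m := by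
  have h1 := card_genD m X D hm hX
  have h2 := card_gen m X D hX hm
  refine ⟨by omega, ?_⟩
  have h3 : e - X.card + D.card = (WD m X D).card + D.card := by omega
  rw [h3]
  refine le_trans (type_ge m X D hm hX) ?_
  unfold T
  refine le_iSup_of_le ⟨GamD m X D hm hX, GamD_cofinite m X D hm hX, ?_, GamD_least m X D hm hX⟩
    le_rfl
  rw [minGens_GamD m X D hm hX, Set.encard_coe_eq_coe_finsetCard]
  have hgc : (genD m X D).card = e + 1 := by omega
  rw [hgc]
  push_cast
  rfl

/-- the number of special generators -/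
def kap (k b : ℕ) : ℕ := if b = 0 then k else k + 1

theorem isLower_two (k b : ℕ) (hb : b ≤ k) :
    ∃ u, IsLower ((k + 1).choose 2 + b) 2 u ∧ u + kap k b = (k + 1).choose 2 + b := by
  have hch : (k + 1).choose 2 = k + k.choose 2 := by
    rw [Nat.choose_succ_succ' k 1, Nat.choose_one_right]
  rcases Nat.eq_zero_or_pos b with rfl | hb0
  · refine ⟨k.choose 2, ?_, by simp [kap]; omega⟩
    rcases Nat.eq_zero_or_pos k with rfl | hk
    · left
      exact ⟨rfl, rfl⟩
    · right
      refine ⟨2, fun _ => k + 1, by norm_num, le_rfl, by show 2 ≤ k + 1; omega,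
        fun i h1 h2 => by omega, ?_, ?_⟩
      · simp
      · simp
  · refine ⟨k.choose 2 + (b - 1), ?_, by rw [kap, if_neg (by omega)]; omega⟩
    right
    refine ⟨1, fun i => if i = 1 then b else k + 1, le_rfl, by norm_num, ?_, ?_, ?_, ?_⟩
    · show 1 ≤ (if 1 = 1 then b else k + 1)
      rw [if_pos rfl]
      exact hb0
    · intro i h1 h2
      have : i = 1 := by omega
      subst this
      simp
      omega
    · have : Finset.Icc 1 2 = ({1, 2} : Finset ℕ) := by decide
      rw [this, Finset.sum_insert (by decide), Finset.sum_singleton]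
      simp
      omega
    · have : Finset.Icc 1 2 = ({1, 2} : Finset ℕ) := by decide
      rw [this, Finset.sum_insert (by decide), Finset.sum_singleton]
      simp
      omega

/-- The criterion: a set `X` with the least possible number of elements. -/
theorem attained_of_good (k b e : ℕ) (hb : b ≤ k)
    (hr : e + 1 + ((k + 1).choose 2 + b) < (e + 2).choose 2)
    (X : Finset ℕ) (D : Finset (Multiset ℕ)) (hXc : X.card = kap k b)
    (hDc : D.card = (k + 1).choose 2 + b)
    (hX : GoodD (e + 1 + ((k + 1).choose 2 + b)) X D) :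
    TAttained e (e + 1 + ((k + 1).choose 2 + b)) := by
  obtain ⟨u, hu1, hu2⟩ := isLower_two k b hb
  obtain ⟨h1, h2⟩ := T_geD _ X D (by omega) hX e (by rw [hDc])
  refine ⟨e + u, ⟨2, (k + 1).choose 2 + b, u, by norm_num, ?_, hr, ?_, hu1, ?_⟩, ?_⟩
  · have : (e + 2 - 1).choose (2 - 1) = e + 1 := by
      show (e + 1).choose 1 = e + 1
      exact Nat.choose_one_right _
    omega
  · have : (e + 2 - 1).choose (2 - 1) = e + 1 := by
      show (e + 1).choose 1 = e + 1
      exact Nat.choose_one_right _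
    omega
  · have : (e + 2 - 2).choose (2 - 1) = e := by
      show e.choose 1 = e
      exact Nat.choose_one_right _
    omega
  · have h3 : e + u = e - X.card + D.card := by omega
    rw [h3]
    exact h2

/-- Sidon sets modulo `m` -/
theorem attained_of_sidon (k b e : ℕ) (hb : b ≤ k)
    (hr : e + 1 + ((k + 1).choose 2 + b) < (e + 2).choose 2)
    (X : Finset ℕ) (hXc : X.card = kap k b)
    (hpos : ∀ x ∈ X, 0 < x ∧ x < e + 1 + ((k + 1).choose 2 + b))
    (hS : SidonMod (e + 1 + ((k + 1).choose 2 + b)) (insert 0 X)) :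
    TAttained e (e + 1 + ((k + 1).choose 2 + b)) := by
  classical
  obtain ⟨z, hz⟩ := X.exists_notMem
  obtain ⟨D0, T0, hD, hT, hDc, hTc⟩ := colexD X ∅ z hz (Finset.empty_subset X)
  have hle : (k + 1).choose 2 + b ≤ D0.card := by
    rw [hDc, Finset.card_empty, add_zero, hXc]
    unfold kap
    split_ifs with h
    · subst h; simp
    · have : (k + 1 + 1).choose 2 = (k + 1).choose 1 + (k + 1).choose 2 :=
        Nat.choose_succ_succ (k + 1) 1
      rw [this, Nat.choose_one_right]
      omega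
  obtain ⟨D, hDsub, hDcard⟩ := Finset.exists_subset_card_eq hle
  refine attained_of_good k b e hb hr X D hXc hDcard ⟨hpos, ?_, ?_⟩
  · intro p hp
    rcases (hD p).1 (hDsub hp) with ⟨h2, hall⟩ | ⟨b, hb, rfl⟩
    · obtain ⟨x, y, rfl⟩ := Multiset.card_eq_two.1 h2
      exact ⟨x, hall x (by simp), y, hall y (by simp), rfl⟩
    · exact absurd hb (Finset.notMem_empty b)
  · intro x hx y hy _ a ha b hb hab
    exact hS a ha b hb x (Finset.mem_insert_of_mem hx) y (Finset.mem_insert_of_mem hy) hab.symm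

/-- The linear range. -/
theorem attained_linear (δ e : ℕ) (hδ : 1 ≤ δ) (he : 72 * δ ≤ e) : TAttained e (e + δ) := by
  obtain ⟨k, b, hb, hs⟩ := exists_rep (δ - 1)
  obtain ⟨Z, hZc, hZpos, hZS⟩ := exists_sidon (k + 1) (by omega)
  have hch : (k + 1).choose 2 * 2 = (k + 1) * k := by
    rw [Nat.choose_two_right]
    have : (k + 1) - 1 = k := rfl
    rw [this]
    exact Nat.div_mul_cancel (by
      rw [mul_comm]
      exact (Nat.even_mul_succ_self k).two_dvd)
  have hL : 2 * (8 * (k + 1 + 1) ^ 2) ≤ e := by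
    have : 16 * (k + 2) ^ 2 ≤ 72 * ((k + 1).choose 2 + 1) := by
      rcases k with _ | k
      · norm_num
      · nlinarith
    have h2 : 72 * ((k + 1).choose 2 + 1) ≤ 72 * δ := by
      apply Nat.mul_le_mul_left
      omega
    have h3 : (k + 1 + 1) ^ 2 = (k + 2) ^ 2 := rfl
    rw [h3]
    omega
  have hkap : kap k b ≤ Z.card := by
    rw [hZc]; unfold kap; split_ifs <;> omega
  obtain ⟨X, hXsub, hXc⟩ := Finset.exists_subset_card_eq hkap
  have hle : ∀ a ∈ insert 0 X, a < 8 * (k + 1 + 1) ^ 2 := by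
    intro a ha
    rcases Finset.mem_insert.1 ha with rfl | h
    · positivity
    · exact (hZpos a (hXsub h)).2
  have hsub : ∀ a ∈ insert 0 X, a ∈ insert 0 Z := fun a ha => Finset.insert_subset_insert 0 hXsub ha
  have hm : e + 1 + ((k + 1).choose 2 + b) = e + δ := by omega
  have h := attained_of_sidon k b e hb (choose_two_lt e _ (by omega) (by omega)) X hXc ?_ ?_
  · rw [hm] at h
    exact h
  · intro x hx
    have h1 := (hZpos x (hXsub hx)).1
    have h2 := hle x (Finset.mem_insert_of_mem hx)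
    omega
  · intro a ha b' hb' c hc d hd h
    have h1 := hle a ha
    have h2 := hle b' hb'
    have h3 := hle c hc
    have h4 := hle d hd
    rw [Nat.mod_eq_of_lt (by omega), Nat.mod_eq_of_lt (by omega)] at h
    exact hZS a (hsub a ha) b' (hsub b' hb') c (hsub c hc) d (hsub d hd) h

/-- the sum `x + y` is, modulo `m`, different from all other sums of two elements of `{0} ∪ X` -/
def Uniq (m : ℕ) (X : Finset ℕ) (x y : ℕ) : Prop :=
  ∀ a ∈ insert 0 X, ∀ b ∈ insert 0 X,
    (x + y) % m = (a + b) % m → (a = x ∧ b = y) ∨ (a = y ∧ b = x)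

instance (m : ℕ) (X : Finset ℕ) (x y : ℕ) : Decidable (Uniq m X x y) := by
  unfold Uniq; infer_instance

/-- the pairs of elements of `X` whose sum is, modulo `m`, different from all other sums of two
elements of `{0} ∪ X` -/
def UPairs (m : ℕ) (X : Finset ℕ) : Finset (ℕ × ℕ) :=
  (X ×ˢ X).filter fun p => p.1 ≤ p.2 ∧ Uniq m X p.1 p.2

/-- The criterion in terms of the number of unique sums. -/
theorem attained_of_pairs (k b e : ℕ) (hb : b ≤ k)
    (hr : e + 1 + ((k + 1).choose 2 + b) < (e + 2).choose 2)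
    (X : Finset ℕ) (hXc : X.card = kap k b)
    (hpos : ∀ x ∈ X, 0 < x ∧ x < e + 1 + ((k + 1).choose 2 + b))
    (hU : (k + 1).choose 2 + b ≤ (UPairs (e + 1 + ((k + 1).choose 2 + b)) X).card) :
    TAttained e (e + 1 + ((k + 1).choose 2 + b)) := by
  classical
  obtain ⟨m, hm⟩ : ∃ m, m = e + 1 + ((k + 1).choose 2 + b) := ⟨_, rfl⟩
  have hmem : ∀ p, p ∈ UPairs m X ↔ (p.1 ∈ X ∧ p.2 ∈ X) ∧ p.1 ≤ p.2 ∧
      ∀ a ∈ insert 0 X, ∀ b ∈ insert 0 X,
      (p.1 + p.2) % m = (a + b) % m → (a = p.1 ∧ b = p.2) ∨ (a = p.2 ∧ b = p.1) := by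
    intro p
    unfold UPairs
    rw [Finset.mem_filter, Finset.mem_product]
    rfl
  obtain ⟨f, hf⟩ : ∃ f : ℕ × ℕ → Multiset ℕ, ∀ p, f p = {p.1, p.2} := ⟨_, fun _ => rfl⟩
  have hsum : ∀ p, (f p).sum = p.1 + p.2 := by
    intro p
    rw [hf]
    simp
  have hinj : Set.InjOn f (UPairs m X : Set (ℕ × ℕ)) := by
    intro p hp q hq h
    rw [Finset.mem_coe, hmem] at hp hq
    have h1 : p.1 + p.2 = q.1 + q.2 := by rw [← hsum, ← hsum, h]
    have h2 := hp.2.2 q.1 (Finset.mem_insert_of_mem hq.1.1) q.2 (Finset.mem_insert_of_mem hq.1.2)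
      (by rw [h1])
    have h3 := hp.2.1
    have h4 := hq.2.1
    exact Prod.ext (by omega) (by omega)
  have hcard : ((UPairs m X).image f).card = (UPairs m X).card := Finset.card_image_of_injOn hinj
  rw [← hm] at hU
  rw [← hcard] at hU
  obtain ⟨D, hDsub, hDcard⟩ := Finset.exists_subset_card_eq hU
  refine attained_of_good k b e hb hr X D hXc hDcard ⟨hpos, ?_, ?_⟩
  · intro p hp
    obtain ⟨q, hq, rfl⟩ := Finset.mem_image.1 (hDsub hp)
    rw [hmem] at hq
    exact ⟨q.1, hq.1.1, q.2, hq.1.2, hf q⟩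
  · intro x hx y hy hxy a ha b' hb' hab
    rw [← hm] at hab
    obtain ⟨q, hq, hqe⟩ := Finset.mem_image.1 (hDsub hxy)
    rw [hmem] at hq
    have h1 : q.1 + q.2 = x + y := by
      rw [← hsum, hqe]
      simp
    have h2 := hq.2.2 x (Finset.mem_insert_of_mem hx) y (Finset.mem_insert_of_mem hy) (by rw [h1])
    have h3 := hq.2.2 a ha b' hb' (by rw [h1]; exact hab)
    omega

/-- the same without reduction -/
def IUniq (X : Finset ℕ) (x y : ℕ) : Prop :=
  ∀ a ∈ insert 0 X, ∀ b ∈ insert 0 X, x + y = a + b → (a = x ∧ b = y) ∨ (a = y ∧ b = x)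

instance (X : Finset ℕ) (x y : ℕ) : Decidable (IUniq X x y) := by
  unfold IUniq; infer_instance

/-- the same without reduction -/
def IPairs (X : Finset ℕ) : Finset (ℕ × ℕ) :=
  (X ×ˢ X).filter fun p => p.1 ≤ p.2 ∧ IUniq X p.1 p.2

/-- Sets of integers suffice when there is no reduction. -/
theorem attained_of_int (k b e L : ℕ) (hb : b ≤ k)
    (hr : e + 1 + ((k + 1).choose 2 + b) < (e + 2).choose 2)
    (X : Finset ℕ) (hXc : X.card = kap k b) (hpos : ∀ x ∈ X, 0 < x ∧ x ≤ L)
    (hL : 2 * L < e + 1 + ((k + 1).choose 2 + b))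
    (hU : (k + 1).choose 2 + b ≤ (IPairs X).card) :
    TAttained e (e + 1 + ((k + 1).choose 2 + b)) := by
  refine attained_of_pairs k b e hb hr X hXc (fun x hx => ?_) (hU.trans (Finset.card_le_card ?_))
  · have := hpos x hx
    omega
  · have hle : ∀ a ∈ insert 0 X, a ≤ L := by
      intro a ha
      rcases Finset.mem_insert.1 ha with rfl | h
      · exact Nat.zero_le _
      · exact (hpos a h).2
    intro p hp
    unfold IPairs at hp
    unfold UPairs
    rw [Finset.mem_filter, Finset.mem_product] at hp ⊢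
    refine ⟨hp.1, hp.2.1, ?_⟩
    intro a ha b' hb' h
    have h1 := hle p.1 (Finset.mem_insert_of_mem hp.1.1)
    have h2 := hle p.2 (Finset.mem_insert_of_mem hp.1.2)
    have h3 := hle a ha
    have h4 := hle b' hb'
    rw [Nat.mod_eq_of_lt (by omega), Nat.mod_eq_of_lt (by omega)] at h
    exact hp.2.2 a ha b' hb' h

/-- the size of `(e + 2).choose 2` -/
lemma two_choose (e : ℕ) : (e + 2).choose 2 * 2 = (e + 2) * (e + 1) := by
  rw [Nat.choose_two_right]
  have : (e + 2) - 1 = e + 1 := rfl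
  rw [this]
  exact Nat.div_mul_cancel (by
    rw [mul_comm]
    exact (Nat.even_mul_succ_self (e + 1)).two_dvd)

/-- range condition: it suffices to check it at the start of the column -/
lemma range_ok (e0 e s : ℕ) (h0 : 2 * (e0 + 1 + s) < (e0 + 2) * (e0 + 1)) (he : e0 ≤ e) :
    e + 1 + s < (e + 2).choose 2 := by
  have h1 := two_choose e
  obtain ⟨d, rfl⟩ : ∃ d, e = e0 + d := ⟨e - e0, by omega⟩
  nlinarith

lemma int1 (e : ℕ) (he : 3 ≤ e) : TAttained e (e + 1) :=
  attained_of_int 0 0 e 0 (by norm_num) (range_ok 3 e 0 (by norm_num) he) ∅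
    (by decide) (by decide) (by show 2 * 0 < e + 1 + 0; omega) (by decide +kernel)

lemma int2 (e : ℕ) (he : 3 ≤ e) : TAttained e (e + 2) :=
  attained_of_int 1 0 e 1 (by norm_num) (range_ok 3 e 1 (by norm_num) he) {1}
    (by decide) (by decide) (by show 2 * 1 < e + 1 + 1; omega) (by decide +kernel)

lemma int3 (e : ℕ) (he : 3 ≤ e) : TAttained e (e + 3) :=
  attained_of_int 1 1 e 2 (by norm_num) (range_ok 3 e 2 (by norm_num) he) {1, 2}
    (by decide) (by decide) (by show 2 * 2 < e + 1 + 2; omega) (by decide +kernel)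

lemma int4 (e : ℕ) (he : 3 ≤ e) : TAttained e (e + 4) :=
  attained_of_int 2 0 e 3 (by norm_num) (range_ok 3 e 3 (by norm_num) he) {1, 3}
    (by decide) (by decide) (by show 2 * 3 < e + 1 + 3; omega) (by decide +kernel)

lemma int5 (e : ℕ) (he : 4 ≤ e) : TAttained e (e + 5) :=
  attained_of_int 2 1 e 4 (by norm_num) (range_ok 4 e 4 (by norm_num) he) {1, 2, 4}
    (by decide) (by decide) (by show 2 * 4 < e + 1 + 4; omega) (by decide +kernel)

lemma mod5_3 : TAttained 3 8 :=
  attained_of_pairs 2 1 3 (by norm_num) (range_ok 3 3 4 (by norm_num) le_rfl) {1, 2, 5}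
    (by decide) (by decide) (by decide +kernel)

lemma int6 (e : ℕ) (he : 3 ≤ e) : TAttained e (e + 6) :=
  attained_of_int 2 2 e 4 (by norm_num) (range_ok 3 e 5 (by norm_num) he) {1, 3, 4}
    (by decide) (by decide) (by show 2 * 4 < e + 1 + 5; omega) (by decide +kernel)

lemma int7 (e : ℕ) (he : 6 ≤ e) : TAttained e (e + 7) :=
  attained_of_int 3 0 e 6 (by norm_num) (range_ok 6 e 6 (by norm_num) he) {1, 4, 6}
    (by decide) (by decide) (by show 2 * 6 < e + 1 + 6; omega) (by decide +kernel)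

lemma int8 (e : ℕ) (he : 5 ≤ e) : TAttained e (e + 8) :=
  attained_of_int 3 1 e 6 (by norm_num) (range_ok 5 e 7 (by norm_num) he) {1, 3, 5, 6}
    (by decide) (by decide) (by show 2 * 6 < e + 1 + 7; omega) (by decide +kernel)

lemma mod8_4 : TAttained 4 12 :=
  attained_of_pairs 3 1 4 (by norm_num) (range_ok 4 4 7 (by norm_num) le_rfl) {1, 3, 5, 6}
    (by decide) (by decide) (by decide +kernel)

lemma int9 (e : ℕ) (he : 4 ≤ e) : TAttained e (e + 9) :=
  attained_of_int 3 2 e 6 (by norm_num) (range_ok 4 e 8 (by norm_num) he) {1, 3, 5, 6}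
    (by decide) (by decide) (by show 2 * 6 < e + 1 + 8; omega) (by decide +kernel)

lemma int10 (e : ℕ) (he : 7 ≤ e) : TAttained e (e + 10) :=
  attained_of_int 3 3 e 8 (by norm_num) (range_ok 7 e 9 (by norm_num) he) {1, 3, 7, 8}
    (by decide) (by decide) (by show 2 * 8 < e + 1 + 9; omega) (by decide +kernel)

lemma int11 (e : ℕ) (he : 12 ≤ e) : TAttained e (e + 11) :=
  attained_of_int 4 0 e 11 (by norm_num) (range_ok 12 e 10 (by norm_num) he) {1, 4, 9, 11}
    (by decide) (by decide) (by show 2 * 11 < e + 1 + 10; omega) (by decide +kernel)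

lemma mod11_10 : TAttained 10 21 :=
  attained_of_pairs 4 0 10 (by norm_num) (range_ok 10 10 10 (by norm_num) le_rfl) {1, 4, 14, 16}
    (by decide) (by decide) (by decide +kernel)

lemma int12 (e : ℕ) (he : 9 ≤ e) : TAttained e (e + 12) :=
  attained_of_int 4 1 e 10 (by norm_num) (range_ok 9 e 11 (by norm_num) he) {1, 2, 5, 8, 10}
    (by decide) (by decide) (by show 2 * 10 < e + 1 + 11; omega) (by decide +kernel)

lemma mod12_5 : TAttained 5 17 :=
  attained_of_pairs 4 1 5 (by norm_num) (range_ok 5 5 11 (by norm_num) le_rfl) {1, 2, 7, 11, 16}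
    (by decide) (by decide) (by decide +kernel)

lemma mod12_6 : TAttained 6 18 :=
  attained_of_pairs 4 1 6 (by norm_num) (range_ok 6 6 11 (by norm_num) le_rfl) {1, 3, 4, 8, 14}
    (by decide) (by decide) (by decide +kernel)

lemma mod12_7 : TAttained 7 19 :=
  attained_of_pairs 4 1 7 (by norm_num) (range_ok 7 7 11 (by norm_num) le_rfl) {1, 2, 4, 8, 13}
    (by decide) (by decide) (by decide +kernel)

lemma mod12_8 : TAttained 8 20 :=
  attained_of_pairs 4 1 8 (by norm_num) (range_ok 8 8 11 (by norm_num) le_rfl) {1, 2, 5, 8, 10}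
    (by decide) (by decide) (by decide +kernel)

lemma int13 (e : ℕ) (he : 8 ≤ e) : TAttained e (e + 13) :=
  attained_of_int 4 2 e 10 (by norm_num) (range_ok 8 e 12 (by norm_num) he) {1, 2, 5, 8, 10}
    (by decide) (by decide) (by show 2 * 10 < e + 1 + 12; omega) (by decide +kernel)

lemma mod13_6 : TAttained 6 19 :=
  attained_of_pairs 4 2 6 (by norm_num) (range_ok 6 6 12 (by norm_num) le_rfl) {1, 3, 12, 14, 15}
    (by decide) (by decide) (by decide +kernel)

lemma mod13_7 : TAttained 7 20 :=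
  attained_of_pairs 4 2 7 (by norm_num) (range_ok 7 7 12 (by norm_num) le_rfl) {1, 2, 5, 11, 17}
    (by decide) (by decide) (by decide +kernel)

lemma int14 (e : ℕ) (he : 7 ≤ e) : TAttained e (e + 14) :=
  attained_of_int 4 3 e 10 (by norm_num) (range_ok 7 e 13 (by norm_num) he) {1, 3, 7, 9, 10}
    (by decide) (by decide) (by show 2 * 10 < e + 1 + 13; omega) (by decide +kernel)

lemma mod14_5 : TAttained 5 19 :=
  attained_of_pairs 4 3 5 (by norm_num) (range_ok 5 5 13 (by norm_num) le_rfl) {1, 3, 12, 14, 15}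
    (by decide) (by decide) (by decide +kernel)

lemma int15 (e : ℕ) (he : 12 ≤ e) : TAttained e (e + 15) :=
  attained_of_int 4 4 e 13 (by norm_num) (range_ok 12 e 14 (by norm_num) he) {1, 4, 5, 11, 13}
    (by decide) (by decide) (by show 2 * 13 < e + 1 + 14; omega) (by decide +kernel)

lemma int16 (e : ℕ) (he : 19 ≤ e) : TAttained e (e + 16) :=
  attained_of_int 5 0 e 17 (by norm_num) (range_ok 19 e 15 (by norm_num) he) {1, 4, 10, 12, 17}
    (by decide) (by decide) (by show 2 * 17 < e + 1 + 15; omega) (by decide +kernel)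

lemma mod16_15 : TAttained 15 31 :=
  attained_of_pairs 5 0 15 (by norm_num) (range_ok 15 15 15 (by norm_num) le_rfl) {1, 3, 8, 12, 18}
    (by decide) (by decide) (by decide +kernel)

lemma col5 (e : ℕ) (he : 3 ≤ e) : TAttained e (e + 5) := by
  rcases Nat.eq_or_lt_of_le he with rfl | h
  · exact mod5_3
  · exact int5 e h

lemma col8' (e : ℕ) (he : 4 ≤ e) : TAttained e (e + 8) := by
  rcases Nat.eq_or_lt_of_le he with rfl | h
  · exact mod8_4
  · exact int8 e h

lemma col12' (e : ℕ) (he : 5 ≤ e) : TAttained e (e + 12) := by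
  have : e = 5 ∨ e = 6 ∨ e = 7 ∨ e = 8 ∨ 9 ≤ e := by omega
  rcases this with rfl | rfl | rfl | rfl | h
  · exact mod12_5
  · exact mod12_6
  · exact mod12_7
  · exact mod12_8
  · exact int12 e h

lemma col13' (e : ℕ) (he : 6 ≤ e) : TAttained e (e + 13) := by
  have : e = 6 ∨ e = 7 ∨ 8 ≤ e := by omega
  rcases this with rfl | rfl | h
  · exact mod13_6
  · exact mod13_7
  · exact int13 e h

lemma first_columns (e δ : ℕ) (he : 3 ≤ e) (h1 : 1 ≤ δ) (h6 : δ ≤ 6) : TAttained e (e + δ) := by
  have : δ = 1 ∨ δ = 2 ∨ δ = 3 ∨ δ = 4 ∨ δ = 5 ∨ δ = 6 := by omega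
  rcases this with rfl | rfl | rfl | rfl | rfl | rfl
  · exact int1 e he
  · exact int2 e he
  · exact int3 e he
  · exact int4 e he
  · exact col5 e he
  · exact int6 e he

/-- `T(e, m) = D(e, m)` holds (that is `D(e, m) ≤ T(e, m)`, the other inequality being known) in
the following cases:
* for all `δ ≥ 1`, `e ≥ 72 δ` and `m = e + δ`;
* the columns `m = e + 1, ..., e + 6` for all `e ≥ 3`;
* the columns `m = e + 7, ..., e + 16` from explicit thresholds on, and three isolated pairs;
* whenever `m = e + 1 + s < binom(e+2, 2)` with `s = binom(k+1, 2) + b`, `0 ≤ b ≤ k`, and there is a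
  set `X` of nonzero residues modulo `m` with `k` elements (`k + 1` elements if `b > 0`) for which
  at least `s` sums of two elements of `X` are unique among the sums of two elements of
  `{0} ∪ X`. -/
theorem result :
    (∀ δ e : ℕ, 1 ≤ δ → 72 * δ ≤ e → TAttained e (e + δ)) ∧
    (∀ e δ : ℕ, 3 ≤ e → 1 ≤ δ → δ ≤ 6 → TAttained e (e + δ)) ∧
    ((∀ e : ℕ, 6 ≤ e → TAttained e (e + 7)) ∧
      (∀ e : ℕ, 4 ≤ e → TAttained e (e + 8)) ∧
      (∀ e : ℕ, 4 ≤ e → TAttained e (e + 9)) ∧
      (∀ e : ℕ, 7 ≤ e → TAttained e (e + 10)) ∧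
      (∀ e : ℕ, e = 10 ∨ 12 ≤ e → TAttained e (e + 11)) ∧
      (∀ e : ℕ, 5 ≤ e → TAttained e (e + 12)) ∧
      (∀ e : ℕ, 6 ≤ e → TAttained e (e + 13)) ∧
      (∀ e : ℕ, e = 5 ∨ 7 ≤ e → TAttained e (e + 14)) ∧
      (∀ e : ℕ, 12 ≤ e → TAttained e (e + 15)) ∧
      (∀ e : ℕ, e = 15 ∨ 19 ≤ e → TAttained e (e + 16))) ∧
    (∀ k b e : ℕ, b ≤ k → e + 1 + ((k + 1).choose 2 + b) < (e + 2).choose 2 →
      ∀ X : Finset ℕ, X.card = (if b = 0 then k else k + 1) →
        (∀ x ∈ X, 0 < x ∧ x < e + 1 + ((k + 1).choose 2 + b)) →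
        (k + 1).choose 2 + b ≤ (UPairs (e + 1 + ((k + 1).choose 2 + b)) X).card →
        TAttained e (e + 1 + ((k + 1).choose 2 + b))) := by
  refine ⟨attained_linear, fun e δ he h1 h6 => first_columns e δ he h1 h6,
    ⟨int7, col8', int9, int10, ?_, col12', col13', ?_, int15, ?_⟩,
    fun k b e hb hr X hXc hpos hU => attained_of_pairs k b e hb hr X hXc hpos hU⟩
  · rintro e (rfl | h)
    · exact mod11_10
    · exact int11 e h
  · rintro e (rfl | h)
    · exact mod14_5
    · exact int14 e h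
  · rintro e (rfl | h)
    · exact mod16_15
    · exact int16 e h

end Pool.Agent.Results.MP_f608e6_al.LinearRange
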